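import Pool.Agent.Nil.Alg

set_option autoImplicit false

namespace Pool.Agent.Results.MP_4977d9_al.NoUniversal

/-- For every countable field `F` and every algebraic `F`-algebra `U` of countable dimension there
is an algebraic (even nil) `F`-algebra `N` of countable dimension which is not a homomorphic image
of `U`. -/
theorem result :
    ∀ (F : Type) [Field F] [Countable F]
      (U : Type) [NonUnitalRing U] [Module F U] [IsScalarTower F U U] [SMulCommClass F U U],
      Module.rank F U ≤ Cardinal.aleph0 →
      (∀ a : U, FiniteDimensional F (NonUnitalAlgebra.adjoin F {a})) →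
      ∃ (N : Type) (_ : NonUnitalRing N) (_ : Module F N) (_ : IsScalarTower F N N)
        (_ : SMulCommClass F N N),
        Module.rank F N ≤ Cardinal.aleph0 ∧
        (∀ b : N, FiniteDimensional F (NonUnitalAlgebra.adjoin F {b})) ∧
        (∀ b : N, ∃ n : ℕ, (fun x : N => b * x)^[n] b = 0) ∧
        ¬ ∃ f : U →ₙₐ[F] N, Function.Surjective f := by
  intro F _ _ U _ _ _ _ hrank halg
  exact Pool.Agent.Nil.alg_main F U hrank halg

end Pool.Agent.Results.MP_4977d9_al.NoUniversal
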